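import Pool.Agent.H91.ML3

set_option autoImplicit false

open Pool.Agent.H91.ML in
theorem Pool.Agent.Results.MP_38d52f_an.Q1CM.result :
    ∀ α : ℝ, 0 < α → α ≤ 1 / 2 →
    (ContDiffOn ℝ (⊤ : ℕ∞) (f α) (Set.Ioi 0) ∧
      ∀ (n : ℕ) (t : ℝ), 0 < t → 0 ≤ (-1) ^ n * iteratedDeriv n (f α) t) :=
  fun α h1 h2 => (main α h1 h2).1
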