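import Pool.Agent.H91.ML3

set_option autoImplicit false

open Pool.Agent.H91.ML in
theorem Pool.Agent.Results.MP_38d52f_an.Q2LogConvex.result :
    ∀ α : ℝ, 0 < α → α ≤ 1 / 2 →
    (∀ t : ℝ, 0 < t → 0 < f α t) ∧ ConvexOn ℝ (Set.Ioi 0) fun t => Real.log (f α t) :=
  fun α h1 h2 => (main α h1 h2).2
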